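import Pool.Agent.Run7.h245.DI.Iface
import Pool.Agent.Run7.h216.MO.MOM

/-!
# Project DI (helper245), piece MCD: the distribution over one-element-per-level sets
-/

set_option autoImplicit false
set_option linter.all false

open scoped Classical

namespace Pool.Agent.Run7.h83.DI

open Pool.Agent.Run7.h245.MO (JJ)
open Pool.Agent.Run7.h245.SR (Sj)
open Pool.Agent.Run7.h245.SR.WALK
open Pool.Agent.Run7.h216.MO
open Pool.Agent.Run7.h245.DI

/-- The transition function of the Markov chain. -/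
noncomputable def hh (d₁ : ℕ) : ℕ → ℕ → ℝ
  | 0, d => if d = d₁ then 1 else 0
  | t + 1, d => (2 : ℝ)⁻¹ ^ d * hh d₁ t (d + 1) + (1 - (2 : ℝ)⁻¹ ^ d) * hh d₁ t (d - 1)

theorem hh_bd (d₁ : ℕ) : ∀ t d, 0 ≤ hh d₁ t d ∧ hh d₁ t d ≤ 1 := by
  intro t
  induction t with
  | zero =>
    intro d
    rw [hh]
    split_ifs <;> norm_num
  | succ t ih =>
    intro d
    rw [hh]
    have h1 := ih (d + 1)
    have h2 := ih (d - 1)
    have h3 : (0 : ℝ) ≤ (2 : ℝ)⁻¹ ^ d := by positivity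
    have h4 : (2 : ℝ)⁻¹ ^ d ≤ 1 := pow_le_one₀ (by norm_num) (by norm_num)
    constructor
    · have := mul_nonneg h3 h1.1
      have := mul_nonneg (sub_nonneg.2 h4) h2.1
      linarith
    · have e1 := mul_le_mul_of_nonneg_left h1.2 h3
      have e2 := mul_le_mul_of_nonneg_left h2.2 (sub_nonneg.2 h4)
      linarith

section grp

variable {ι : Type} [Fintype ι]

/-- The elements which vanish at `x` are at most half of the elements, if not everything vanishes. -/
theorem card_filter_le' (V : AddSubgroup (ι → ZMod 2 × ZMod 2)) (x : ι)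
    (l₀ : ι → ZMod 2 × ZMod 2) (hl₀ : l₀ ∈ V) (hx : (l₀ x).2 ≠ 0) :
    2 * ((Finset.univ.filter fun l : ι → ZMod 2 × ZMod 2 => l ∈ V).filter
      fun l => (l x).2 = 0).card ≤ Nat.card V := by
  set Vf : Finset (ι → ZMod 2 × ZMod 2) := Finset.univ.filter fun l => l ∈ V with hVf
  have hc : Vf.card = Nat.card V := by
    rw [hVf, ← Fintype.card_subtype, Nat.card_eq_fintype_card]
  have h1 : (Vf.filter fun l => (l x).2 = 0).card ≤ (Vf.filter fun l => ¬ (l x).2 = 0).card := by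
    refine Finset.card_le_card_of_injOn (fun l => l + l₀) ?_ ?_
    · intro l hl
      rw [Finset.mem_coe, Finset.mem_filter, hVf, Finset.mem_filter] at hl
      rw [Finset.mem_coe, Finset.mem_filter, hVf, Finset.mem_filter]
      refine ⟨⟨Finset.mem_univ _, V.add_mem hl.1.2 hl₀⟩, ?_⟩
      show ¬ (l x).2 + (l₀ x).2 = 0
      rw [hl.2, zero_add]
      exact hx
    · intro a _ b _ hab
      exact add_right_cancel hab
  have h2 := Finset.card_filter_add_card_filter_not (s := Vf) (fun l => (l x).2 = 0)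
  rw [hc] at h2
  omega

theorem count_ge (V : AddSubgroup (ι → ZMod 2 × ZMod 2)) (T : Finset ι) (ε : ℝ) (hε : 0 < ε)
    (h : ∀ l ∈ V, l ≠ 0 → (((T.filter fun i => (l i).2 ≠ 0).card : ℕ) : ℝ) ≤ (1 / 2 + ε) * T.card) :
    T.card * (1 / (Nat.card V : ℝ) - 2 * ε) ≤
      ((T.filter fun x => ∀ l ∈ V, (l x).2 = 0).card : ℝ) := by
  set Vf : Finset (ι → ZMod 2 × ZMod 2) := Finset.univ.filter fun l => l ∈ V with hVf
  have hc : Vf.card = Nat.card V := by
    rw [hVf, ← Fintype.card_subtype, Nat.card_eq_fintype_card]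
  have hv : 0 < Nat.card V := Nat.card_pos
  set v : ℝ := (Nat.card V : ℝ) with hvd
  have hv0 : 0 < v := by
    rw [hvd]
    exact_mod_cast hv
  set N0 := (T.filter fun x => ∀ l ∈ V, (l x).2 = 0).card with hN0
  have hdc : ∑ x ∈ T, (Vf.filter fun l => (l x).2 = 0).card =
      ∑ l ∈ Vf, (T.filter fun x => (l x).2 = 0).card := by
    simp only [Finset.card_filter]
    rw [Finset.sum_comm]
  have hup : 2 * ((∑ x ∈ T, (Vf.filter fun l => (l x).2 = 0).card : ℕ) : ℝ) ≤ v * T.card + v * N0 := by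
    have e1 : v * T.card + v * N0 = ∑ x ∈ T, (v + if ∀ l ∈ V, (l x).2 = 0 then v else 0) := by
      rw [Finset.sum_add_distrib, ← Finset.sum_filter, Finset.sum_const, Finset.sum_const,
        nsmul_eq_mul, nsmul_eq_mul, ← hN0]
      ring
    rw [e1, Nat.cast_sum, Finset.mul_sum]
    refine Finset.sum_le_sum fun x hx => ?_
    split_ifs with hg
    · have : ((Vf.filter fun l => (l x).2 = 0).card : ℝ) ≤ Vf.card := by
        exact_mod_cast Finset.card_filter_le _ _
      rw [hc] at this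
      linarith
    · simp only [not_forall] at hg
      obtain ⟨l₀, hl₀, hx₀⟩ := hg
      have := card_filter_le' V x l₀ hl₀ hx₀
      rw [add_zero]
      have h2 : ((2 * (Vf.filter fun l => (l x).2 = 0).card : ℕ) : ℝ) ≤ (Nat.card V : ℝ) := by
        exact_mod_cast this
      push_cast at h2
      exact h2
  have hlow : T.card + (v - 1) * ((1 / 2 - ε) * T.card) ≤
      ((∑ l ∈ Vf, (T.filter fun x => (l x).2 = 0).card : ℕ) : ℝ) := by
    have h0 : (0 : ι → ZMod 2 × ZMod 2) ∈ Vf := by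
      rw [hVf, Finset.mem_filter]
      exact ⟨Finset.mem_univ _, V.zero_mem⟩
    rw [← Finset.add_sum_erase Vf _ h0]
    push_cast
    refine add_le_add ?_ ?_
    · have : (T.filter fun x => ((0 : ι → ZMod 2 × ZMod 2) x).2 = 0) = T :=
        Finset.filter_true_of_mem fun x _ => rfl
      rw [this]
    · have e3 : (v - 1) * ((1 / 2 - ε) * T.card) = ∑ l ∈ Vf.erase 0, ((1 / 2 - ε) * (T.card : ℝ)) := by
        rw [Finset.sum_const, nsmul_eq_mul, Finset.card_erase_of_mem h0, hc,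
          Nat.cast_sub (by omega), Nat.cast_one]
      rw [e3]
      refine Finset.sum_le_sum ?_
      intro l hl
      rw [Finset.mem_erase, hVf, Finset.mem_filter] at hl
      have h4 := h l hl.2.2 hl.1
      have h5 := Finset.card_filter_add_card_filter_not (s := T) (fun i => (l i).2 = 0)
      have h6 : ((T.filter fun i => (l i).2 = 0).card : ℝ) +
          (T.filter fun i => (l i).2 ≠ 0).card = T.card := by exact_mod_cast h5
      linarith
  rw [hdc] at hup
  have hT : (0 : ℝ) ≤ T.card := Nat.cast_nonneg _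
  have hfin : T.card * (1 - 2 * ε * v) ≤ v * N0 := by
    have : 0 ≤ ε * T.card := by positivity
    nlinarith
  have e2 : (T.card : ℝ) * (1 / v - 2 * ε) = (T.card * (1 - 2 * ε * v)) / v := by
    field_simp
  rw [e2, div_le_iff₀ hv0]
  linarith [mul_comm v (N0 : ℝ)]

/-- One level. -/
theorem level (hS : S_STEP) (Λ : AddSubgroup (ι → ZMod 2 × ZMod 2))
    (hΛ : ∀ l ∈ Λ, ∑ i, (l i).1 * (l i).2 = 0) (hc : 2 ^ Fintype.card ι ≤ Nat.card Λ)
    (J T : Finset ι) (hx : ∀ x ∈ T, x ∉ J) (ε : ℝ) (hε : 0 < ε)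
    (h1 : ∀ l ∈ Sj Λ J, l ≠ 0 →
      (((T.filter fun i => (l i).2 = 0).card : ℕ) : ℝ) ≤ (1 / 2 + ε) * T.card)
    (h2 : ∀ l ∈ Sj Λ J, l ≠ 0 →
      (((T.filter fun i => (l i).2 ≠ 0).card : ℕ) : ℝ) ≤ (1 / 2 + ε) * T.card)
    (d₁ t : ℕ) :
    |∑ x ∈ T, hh d₁ t (Nat.log 2 (Nat.card (Sj Λ (insert x J)))) -
      T.card * hh d₁ (t + 1) (Nat.log 2 (Nat.card (Sj Λ J)))| ≤ T.card * (2 * ε) := by
  obtain ⟨d, hd⟩ := pow_two (Sj Λ J)
  have hlog : Nat.log 2 (Nat.card (Sj Λ J)) = d := by rw [hd]; exact Nat.log_pow (by norm_num) d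
  have g1 := count (Sj Λ J) T ε hε h1
  have g2 := count_ge (Sj Λ J) T ε hε h2
  rw [hd] at g1 g2
  push_cast at g1 g2
  set N0 := (T.filter fun x => ∀ l ∈ Sj Λ J, (l x).2 = 0).card with hN0
  have e1 : ∑ x ∈ T, hh d₁ t (Nat.log 2 (Nat.card (Sj Λ (insert x J)))) =
      ∑ x ∈ T, (hh d₁ t (d - 1) + if ∀ l ∈ Sj Λ J, (l x).2 = 0 then
        hh d₁ t (d + 1) - hh d₁ t (d - 1) else 0) := by
    refine Finset.sum_congr rfl fun x hxT => ?_
    rcases hS ι Λ J x hΛ hc (hx x hxT) with ⟨⟨v, hv, hv2⟩, h4⟩ | ⟨h3, h4⟩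
    · rw [if_neg (fun h => hv2 (h v hv)), add_zero]
      congr 1
      obtain ⟨e, he⟩ := pow_two (Sj Λ (insert x J))
      rw [hd, he, ← pow_succ'] at h4
      have h5 : d = e + 1 := Nat.pow_right_injective (le_refl 2) h4
      rw [he, Nat.log_pow (by norm_num), h5, Nat.add_sub_cancel]
    · rw [if_pos h3]
      rw [hd, ← pow_succ'] at h4
      rw [h4, Nat.log_pow (by norm_num)]
      ring
  rw [hlog, e1, Finset.sum_add_distrib, ← Finset.sum_filter, Finset.sum_const, Finset.sum_const,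
    nsmul_eq_mul, nsmul_eq_mul, ← hN0]
  have e2 : hh d₁ (t + 1) d = (2 : ℝ)⁻¹ ^ d * hh d₁ t (d + 1) +
      (1 - (2 : ℝ)⁻¹ ^ d) * hh d₁ t (d - 1) := by rw [hh]
  rw [e2]
  have e3 : (T.card : ℝ) * hh d₁ t (d - 1) + N0 * (hh d₁ t (d + 1) - hh d₁ t (d - 1)) -
      T.card * ((2 : ℝ)⁻¹ ^ d * hh d₁ t (d + 1) + (1 - (2 : ℝ)⁻¹ ^ d) * hh d₁ t (d - 1)) =
      (N0 - T.card * (2 : ℝ)⁻¹ ^ d) * (hh d₁ t (d + 1) - hh d₁ t (d - 1)) := by ring
  rw [e3, abs_mul]
  have hb1 := hh_bd d₁ t (d + 1)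
  have hb2 := hh_bd d₁ t (d - 1)
  have h5 : |hh d₁ t (d + 1) - hh d₁ t (d - 1)| ≤ 1 := by
    rw [abs_le]; constructor <;> linarith
  have h6 : |(N0 : ℝ) - T.card * (2 : ℝ)⁻¹ ^ d| ≤ T.card * (2 * ε) := by
    have e4 : (2 : ℝ)⁻¹ ^ d = 1 / 2 ^ d := by rw [inv_pow, one_div]
    rw [e4, abs_le]
    constructor <;> nlinarith
  calc |(N0 : ℝ) - T.card * (2 : ℝ)⁻¹ ^ d| * |hh d₁ t (d + 1) - hh d₁ t (d - 1)|
      ≤ (T.card * (2 * ε)) * 1 := mul_le_mul h6 h5 (abs_nonneg _) (mul_nonneg (Nat.cast_nonneg _) (by linarith))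
    _ = T.card * (2 * ε) := mul_one _

end grp

theorem mcd (hS : S_STEP) (hM : S_MCC) : S_MCD := by
  intro n₀ δ hδ
  obtain ⟨C, hC, HC⟩ := hM
  obtain ⟨k₀, hk₀⟩ := exists_pow_lt_of_lt_one (show 0 < δ / 2 / (C * 2 ^ (2 * n₀)) by positivity)
    (show (2 : ℝ)⁻¹ < 1 by norm_num)
  set k := k₀ + 1 with hk
  have hkb : C * 2 ^ (2 * n₀) * (2 : ℝ)⁻¹ ^ k ≤ δ / 2 := by
    have h1 : (2 : ℝ)⁻¹ ^ k ≤ (2 : ℝ)⁻¹ ^ k₀ := by
      rw [hk]
      exact pow_le_pow_of_le_one (by norm_num) (by norm_num) (Nat.le_succ _)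
    have h2 : (0 : ℝ) < C * 2 ^ (2 * n₀) := by positivity
    rw [lt_div_iff₀ h2] at hk₀
    have := mul_le_mul_of_nonneg_left h1 h2.le
    linarith
  refine ⟨k, δ / (4 * k + 4), by omega, by positivity, ?_⟩
  set ε := δ / (4 * (k : ℝ) + 4) with hεd
  have hε : 0 < ε := by positivity
  have hkε : 2 * k * ε ≤ δ / 2 := by
    rw [hεd]
    have hk0 : (0 : ℝ) ≤ k := Nat.cast_nonneg _
    have : 2 * (k : ℝ) * (δ / (4 * k + 4)) = (δ / 2) * (4 * k / (4 * k + 4)) := by
      field_simp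
      ring
    rw [this]
    have h3 : 4 * (k : ℝ) / (4 * k + 4) ≤ 1 := by
      rw [div_le_one (by positivity)]
      linarith
    nlinarith
  intro ι _ Λ T J₀ hΛ hcard hd hne hT0 hJ₀ hinj hlev
  obtain ⟨s, hs⟩ := pow_two (Sj Λ J₀)
  refine ⟨s, hs, ?_⟩
  intro d₁
  have hpos : ∀ n, n ≤ k → (JJ T n).Nonempty := by
    intro n
    induction n with
    | zero => intro _; exact ⟨∅, by simp [JJ]⟩
    | succ n ih =>
      intro hn
      have h1 := ih (by omega)
      have h2 := hne (n + 1) (by omega) hn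
      rw [JJ]
      exact (h1.product h2).image _
  have hcR : ∀ n, n ≤ k → (0 : ℝ) < (JJ T n).card := fun n hn => by
    exact_mod_cast (hpos n hn).card_pos
  have hTR : ∀ n, n < k → (0 : ℝ) < (T (n + 1)).card := fun n hn => by
    exact_mod_cast (hne (n + 1) (by omega) hn).card_pos
  have hcm : ∀ n, n < k → ((JJ T (n + 1)).card : ℝ) = (JJ T n).card * (T (n + 1)).card := by
    intro n hn
    have := sum_JJ T k n hn hd (fun _ => 1)
    simp only [Finset.sum_const, nsmul_eq_mul, mul_one] at this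
    exact this
  -- the bound for `s`
  have hsn : s ≤ 2 * n₀ := by
    have h1 : Nat.card (Sj Λ J₀) ≤ Nat.card (T 0 → ZMod 2 × ZMod 2) := by
      refine Nat.card_le_card_of_injective
        (fun l : Sj Λ J₀ => fun i : T 0 => ((l : ι → ZMod 2 × ZMod 2) i)) ?_
      intro l l' hll
      have h2 : (l : ι → ZMod 2 × ZMod 2) - l' = 0 := by
        have hm := (Sj Λ J₀).sub_mem l.2 l'.2
        have hT : ∀ i ∈ T 0, ((l : ι → ZMod 2 × ZMod 2) - l') i = 0 := by
          intro i hi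
          have := congrFun hll ⟨i, hi⟩
          simp only at this
          show ((l : ι → ZMod 2 × ZMod 2) i) - ((l' : ι → ZMod 2 × ZMod 2) i) = 0
          rw [this, sub_self]
        refine hinj _ hm.1 (fun i => ?_) fun i hi => ?_
        · by_cases hi : i ∈ J₀
          · rw [hT i (hJ₀ hi)]
            rfl
          · exact hm.2.1 i hi
        · rw [hT i hi]
          rfl
      exact Subtype.ext (sub_eq_zero.1 h2)
    rw [Nat.card_eq_fintype_card (α := T 0 → ZMod 2 × ZMod 2), Fintype.card_fun, Fintype.card_prod,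
      ZMod.card, Fintype.card_coe, hs] at h1
    have h3 : (2 * 2) ^ (T 0).card ≤ (2 * 2) ^ n₀ := Nat.pow_le_pow_right (by norm_num) hT0
    have h4 : (2 * 2) ^ n₀ = 2 ^ (2 * n₀) := by rw [pow_mul]; norm_num
    rw [h4] at h3
    exact (Nat.pow_le_pow_iff_right (by norm_num)).1 (h1.trans h3)
  -- the mean
  set a : ℕ → ℝ := fun n => (∑ J ∈ JJ T n, hh d₁ (k - n) (Nat.log 2 (Nat.card (Sj Λ (J₀ ∪ J))))) /
    (JJ T n).card with ha
  have ha0 : a 0 = hh d₁ k s := by
    rw [ha]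
    simp only [JJ, Finset.sum_singleton, Finset.card_singleton, Nat.cast_one, div_one,
      Finset.union_empty, Nat.sub_zero]
    rw [hs, Nat.log_pow (by norm_num)]
  have hak : a k = (((JJ T k).filter fun J => Nat.card (Sj Λ (J₀ ∪ J)) = 2 ^ d₁).card : ℝ) /
      (JJ T k).card := by
    rw [ha]
    simp only
    congr 1
    rw [Finset.card_filter, Nat.cast_sum, Nat.sub_self]
    refine Finset.sum_congr rfl fun J hJ => ?_
    obtain ⟨e, he⟩ := pow_two (Sj Λ (J₀ ∪ J))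
    rw [hh, he, Nat.log_pow (by norm_num)]
    by_cases h : e = d₁
    · rw [if_pos h, if_pos (by rw [h]), Nat.cast_one]
    · rw [if_neg h, if_neg (fun h' => h (Nat.pow_right_injective (le_refl 2) h')), Nat.cast_zero]
  have hstep : ∀ n, n < k → |a (n + 1) - a n| ≤ 2 * ε := by
    intro n hn
    have hc := hcR n hn.le
    have hT := hTR n hn
    have hc1 := hcR (n + 1) hn
    have h1 : ∀ J ∈ JJ T n,
        |∑ x ∈ T (n + 1), hh d₁ (k - (n + 1)) (Nat.log 2 (Nat.card (Sj Λ (J₀ ∪ insert x J)))) -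
          (T (n + 1)).card * hh d₁ (k - n) (Nat.log 2 (Nat.card (Sj Λ (J₀ ∪ J))))| ≤
        (T (n + 1)).card * (2 * ε) := by
      intro J hJ
      have hx : ∀ x ∈ T (n + 1), x ∉ J₀ ∪ J := by
        intro x hx hxJ
        rcases Finset.mem_union.1 hxJ with h | h
        · exact (Finset.disjoint_left.1 (hd 0 (by omega) (n + 1) (by omega) (by omega))) (hJ₀ h) hx
        · exact notMem_JJ T k n hn hd J hJ x hx h
      have hl1 : ∀ l ∈ Sj Λ (J₀ ∪ J), ∀ i, (∀ m < n + 1, i ∉ T m) → (l i).1 = 0 := by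
        intro l hl i hi
        refine hl.2.1 i fun hiJ => ?_
        rcases Finset.mem_union.1 hiJ with h | h
        · exact hi 0 (by omega) (hJ₀ h)
        · obtain ⟨m, hm1, hm2, hm3⟩ := mem_JJ T n J hJ i h
          exact hi m (by omega) hm3
      have key := level hS Λ hΛ hcard (J₀ ∪ J) (T (n + 1)) hx ε hε
        (fun l hl hl0 => (hlev (n + 1) (by omega) hn l hl.1 hl0 (hl1 l hl)).1)
        (fun l hl hl0 => (hlev (n + 1) (by omega) hn l hl.1 hl0 (hl1 l hl)).2) d₁ (k - (n + 1))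
      have e : k - (n + 1) + 1 = k - n := by omega
      rw [e] at key
      simpa only [Finset.union_insert] using key
    have h2 : a (n + 1) - a n = (∑ J ∈ JJ T n, (∑ x ∈ T (n + 1),
        hh d₁ (k - (n + 1)) (Nat.log 2 (Nat.card (Sj Λ (J₀ ∪ insert x J)))) -
          (T (n + 1)).card * hh d₁ (k - n) (Nat.log 2 (Nat.card (Sj Λ (J₀ ∪ J)))))) /
        ((JJ T n).card * (T (n + 1)).card) := by
      rw [Finset.sum_sub_distrib, ← Finset.mul_sum, ← sum_JJ T k n hn hd
        (fun J => hh d₁ (k - (n + 1)) (Nat.log 2 (Nat.card (Sj Λ (J₀ ∪ J))))), ha]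
      simp only
      rw [hcm n hn]
      field_simp
    rw [h2, abs_div, abs_of_pos (mul_pos hc hT), div_le_iff₀ (mul_pos hc hT)]
    refine (Finset.abs_sum_le_sum_abs _ _).trans ((Finset.sum_le_card_nsmul _ _ _ h1).trans (le_of_eq ?_))
    rw [nsmul_eq_mul]
    ring
  have htot : ∀ n, n ≤ k → |a n - a 0| ≤ n * (2 * ε) := by
    intro n
    induction n with
    | zero => intro _; simp
    | succ n ih =>
      intro hn
      have h1 := ih (by omega)
      have h2 := hstep n (by omega)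
      have h3 : a (n + 1) - a 0 = (a (n + 1) - a n) + (a n - a 0) := by ring
      rw [h3]
      refine (abs_add_le _ _).trans ?_
      push_cast
      linarith
  have h1 := htot k le_rfl
  have h2 := HC d₁ (hh d₁) (fun d => by rw [hh]) (fun t d => by rw [hh]) k s
  rw [hak, ha0] at h1
  have h3 : C * 2 ^ s * (2 : ℝ)⁻¹ ^ k ≤ δ / 2 := by
    refine le_trans ?_ hkb
    have : (2 : ℝ) ^ s ≤ 2 ^ (2 * n₀) := pow_le_pow_right₀ (by norm_num) hsn
    have h4 : (0 : ℝ) ≤ (2 : ℝ)⁻¹ ^ k := by positivity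
    exact mul_le_mul_of_nonneg_right (mul_le_mul_of_nonneg_left this hC.le) h4
  have h5 := abs_sub_le ((((JJ T k).filter fun J => Nat.card (Sj Λ (J₀ ∪ J)) = 2 ^ d₁).card : ℝ) /
      (JJ T k).card) (hh d₁ k s) (if (s + k + d₁) % 2 = 0 then 2 * cc d₁ else 0)
  refine h5.trans ?_
  linarith

end Pool.Agent.Run7.h83.DI
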